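import Pool.Agent.X137.EStar

set_option autoImplicit false

open Set Metric Filter Topology

namespace Pool.Agent.Results.MP_9a9339_an.ExteriorStar

/-- the Laplacian of `u` at `x`, the sum of the pure second derivatives -/
noncomputable def lapl {d : ℕ} (u : EuclideanSpace ℝ (Fin d) → ℝ) (x : EuclideanSpace ℝ (Fin d)) :
    ℝ :=
  ∑ i : Fin d, iteratedFDeriv ℝ 2 u x (fun _ => EuclideanSpace.single i (1 : ℝ))

/-- `f` is a positive reaction; only `C¹` regularity is asked -/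
def PosReaction (f : ℝ → ℝ) : Prop :=
  ContDiff ℝ 1 f ∧ f 0 = 0 ∧ f 1 = 0 ∧ (∀ s : ℝ, 1 < s → f s < 0) ∧ deriv f 1 < 0 ∧
    (∀ s : ℝ, 0 < s → s < 1 → 0 < f s) ∧ 0 < deriv f 0

/-- `u` is a positive bounded (classical) solution of `-Δu = f(u)` in `Ω`, `u = 0` on `∂Ω` -/
def PosBddSol {d : ℕ} (f : ℝ → ℝ) (Ω : Set (EuclideanSpace ℝ (Fin d)))
    (u : EuclideanSpace ℝ (Fin d) → ℝ) : Prop :=
  ContDiffOn ℝ 2 u Ω ∧ ContinuousOn u (closure Ω) ∧ (∀ x ∈ frontier Ω, u x = 0) ∧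
    (∀ x ∈ Ω, 0 < u x) ∧ (∃ C : ℝ, ∀ x ∈ Ω, |u x| ≤ C) ∧ ∀ x ∈ Ω, -lapl u x = f (u x)

/-- uniform two-sided ball condition (a uniformly `C^{1,1}` boundary): for some `r > 0`, at each
boundary point `q` one open ball of radius `r` in `Ω` and one in `Ωᶜ` touch `∂Ω` at `q`, with
centres `q + rν`, `q - rν` for a unit vector `ν` -/
def UniformBalls {d : ℕ} (Ω : Set (EuclideanSpace ℝ (Fin d))) : Prop :=
  ∃ r : ℝ, 0 < r ∧ ∀ q ∈ frontier Ω, ∃ ν : EuclideanSpace ℝ (Fin d), ‖ν‖ = 1 ∧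
    ball (q + r • ν) r ⊆ Ω ∧ ball (q - r • ν) r ⊆ Ωᶜ

/-- uniformly `C²` boundary, no Hölder condition on the second derivatives: near each boundary
point `p`, `Ω ∩ B(p,r)` is the part above the graph (in a direction `ν`) of a `C²` function `φ`
(extended constantly along `ν`) with first and second derivatives bounded by `M` -/
def UniformC2 {d : ℕ} (Ω : Set (EuclideanSpace ℝ (Fin d))) : Prop :=
  ∃ r : ℝ, 0 < r ∧ ∃ M : ℝ, ∀ p ∈ frontier Ω, ∃ ν : EuclideanSpace ℝ (Fin d), ‖ν‖ = 1 ∧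
    ∃ φ : EuclideanSpace ℝ (Fin d) → ℝ, ContDiff ℝ 2 φ ∧
    (∀ (y : EuclideanSpace ℝ (Fin d)) (t : ℝ), φ (y + t • ν) = φ y) ∧
    (∀ y : EuclideanSpace ℝ (Fin d),
      ‖iteratedFDeriv ℝ 1 φ y‖ ≤ M ∧ ‖iteratedFDeriv ℝ 2 φ y‖ ≤ M) ∧
    ∀ x ∈ ball p r, (x ∈ Ω ↔ φ (x - p) < inner ℝ (x - p) ν)

/-- **Answer (yes) to Q1, in a stronger form.** In every dimension, for every positive reaction
(only `C¹`), every open set `Ω`, connected or not, bounded or not, with uniform two-sided ball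
condition or with uniformly `C²` boundary, whose complement is star-shaped about at least one
point: a positive bounded solution exists, any two agree on `closure Ω`, and if `Ω` is not the
whole space the solution is strictly increasing along rays from every star centre `x₀` of `Ωᶜ`,
and takes values in `(0,1)` in `Ω`. -/
theorem result (d : ℕ) (f : ℝ → ℝ) (hf : PosReaction f)
    (Ω : Set (EuclideanSpace ℝ (Fin d))) (hΩ : IsOpen Ω)
    (hreg : UniformBalls Ω ∨ UniformC2 Ω)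
    (hstar : ∃ x₀ : EuclideanSpace ℝ (Fin d), StarConvex ℝ x₀ Ωᶜ) :
    (∃ u, PosBddSol f Ω u) ∧
    (∀ u v, PosBddSol f Ω u → PosBddSol f Ω v → ∀ x ∈ closure Ω, u x = v x) ∧
    (Ω ≠ univ → ∀ u, PosBddSol f Ω u →
      (∀ x ∈ Ω, u x < 1) ∧
      ∀ x₀ : EuclideanSpace ℝ (Fin d), StarConvex ℝ x₀ Ωᶜ → ∀ x ∈ Ω, ∀ k : ℝ, 1 < k →
        x₀ + k • (x - x₀) ∈ Ω ∧ u x < u (x₀ + k • (x - x₀))) := by
  have hR : ExtStar.React f := hf
  have hBC : ∃ r : ℝ, 0 < r ∧ ExtStar.BC Ω r := by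
    rcases hreg with ⟨r, hr, h⟩ | ⟨r, hr, M, h⟩
    · refine ⟨r, hr, fun q hq => ?_⟩
      obtain ⟨ν, h1, h2, h3⟩ := h q hq
      exact ⟨ν, hq, h1, h2, h3⟩
    · obtain ⟨r', h1, -, h2⟩ := ExtStar.graph_BC Ω hΩ r M hr h
      exact ⟨r', h1, h2⟩
  obtain ⟨r, hr, hBC⟩ := hBC
  obtain ⟨x₁, hx₁⟩ := hstar
  have hS : ∀ u : EuclideanSpace ℝ (Fin d) → ℝ, PosBddSol f Ω u → ExtStar.PBS f Ω u :=
    fun u hu => hu
  refine ⟨X137.EStar.exists_pbs' hR hΩ hr hBC hx₁, ?_, ?_⟩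
  · intro u v hu hv
    have hin : ∀ x ∈ Ω, u x = v x := by
      by_cases hne : Ω = univ
      · subst hne
        intro x _
        rw [X137.EStar.uniq_univ hR (hS u hu) x, X137.EStar.uniq_univ hR (hS v hv) x]
      · intro x hx
        have h1 := (X137.EStar.key hR hΩ hr hBC hne hx₁ (hS u hu) (hS v hv) x hx 1 le_rfl).2
        have h2 := (X137.EStar.key hR hΩ hr hBC hne hx₁ (hS v hv) (hS u hu) x hx 1 le_rfl).2
        rw [one_smul, add_sub_cancel] at h1 h2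
        exact le_antisymm h1 h2
    intro x hx
    by_cases hxΩ : x ∈ Ω
    · exact hin x hxΩ
    · have hfr : x ∈ frontier Ω := by
        rw [frontier, hΩ.interior_eq]
        exact ⟨hx, hxΩ⟩
      rw [hu.2.2.1 x hfr, hv.2.2.1 x hfr]
  · intro hne u hu
    refine ⟨X137.EStar.lt_one hR hΩ hne (hS u hu), fun x₀ hx₀ => ?_⟩
    exact X137.EStar.strict hR hΩ hr hBC hne hx₀ (hS u hu)

end Pool.Agent.Results.MP_9a9339_an.ExteriorStar
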